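import Pool.Agent.NH11.Ma.Fin

/-! The groups induced on the seven conics of proper Mathon 8-arcs: they are cyclic with at most
seven elements, and seven elements occur exactly when `7 ∣ h`. -/

namespace Pool.Agent.Results.MP_df3b73_co.InducedGroup

open Pool.Agent.NH11.Ma

/-- Let `F` be a field with `2 ^ h` elements. For every closed set `S` of seven conics whose arc is
a proper Mathon 8-arc, the group induced on the seven conics is cyclic with at most seven elements
(so it is never `GL_3(2)`, of order 168); and there is a proper Mathon 8-arc whose induced group
has seven elements if and only if `7 ∣ h`. -/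
theorem result (F : Type*) [Field F] (h : ℕ) (hcard : Nat.card F = 2 ^ h) :
    (∀ S : Set (Par F), IsClosedSeven h S → ¬ IsDenniston h S →
      IsCyclic (inducedGroup S) ∧ Nat.card (inducedGroup S) ≤ 7) ∧
    ((∃ S : Set (Par F), IsClosedSeven h S ∧ ¬ IsDenniston h S ∧
      Nat.card (inducedGroup S) = 7) ↔ 7 ∣ h) :=
  main F h hcard

end Pool.Agent.Results.MP_df3b73_co.InducedGroup
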